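import Pool.Agent.Work.MP_001c0f_co.LMain

set_option autoImplicit false
open Polynomial

namespace Pool.Agent.Results.MP_001c0f_co.LargeN

/-- The frozen statement S06859 (both parts) for every m ≥ 2 and all sufficiently large n. -/
theorem result :
    ∀ m : ℕ, 2 ≤ m → ∃ n0 : ℕ, ∀ (k : Type) [Field k] (n : ℕ), n0 ≤ n →
    ∀ B : Finset (Finset (Fin n)) → ℕ → ℤ,
      (∀ L s, B L s =
        ((L.filter (fun τ => τ.card = s)).card : ℤ)
        - ((Matrix.of (fun ρ τ : Finset (Fin n) =>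
              if τ ∈ L ∧ τ.card = s ∧ ρ ⊆ τ ∧ ρ.card + 1 = τ.card
              then ∑ v ∈ τ \ ρ, (-1 : k) ^ (τ.filter (fun w => w < v)).card
              else 0) : Matrix (Finset (Fin n)) (Finset (Fin n)) k).rank : ℤ)
        - ((Matrix.of (fun ρ τ : Finset (Fin n) =>
              if τ ∈ L ∧ τ.card = s + 1 ∧ ρ ⊆ τ ∧ ρ.card + 1 = τ.card
              then ∑ v ∈ τ \ ρ, (-1 : k) ^ (τ.filter (fun w => w < v)).card
              else 0) : Matrix (Finset (Fin n)) (Finset (Fin n)) k).rank : ℤ)) →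
    ∀ HS : Finset (Finset (Fin n)) → ℕ → Prop,
      (∀ L d, HS L d ↔ ∀ σ ∈ L, ∀ s : ℕ,
          B (L.filter (fun τ => Disjoint τ σ ∧ τ ∪ σ ∈ L)) s =
            if (s : ℤ) = (d : ℤ) + 1 - (σ.card : ℤ) then 1 else 0) →
    ∀ Δ : Finset (Finset (Fin n)),
      (∀ σ ∈ Δ, ∀ τ : Finset (Fin n), τ ⊆ σ → τ ∈ Δ) →
      (∀ v : Fin n, ({v} : Finset (Fin n)) ∈ Δ) →
      (∀ s : Finset (Fin n),
          (∀ u ∈ s, ∀ v ∈ s, ({u, v} : Finset (Fin n)) ∈ Δ) → s ∈ Δ) →
      HS Δ (2 * m) →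
      ∀ i ∈ Finset.Icc 1 (2 * m),
        (Δ.filter (fun σ => σ.card = i + 1)).card ≤
            ((1 + C 2 * X) *
              (1 + C ((n - 2) / m + 1) * X + C ((n - 2) / m + 1) * X ^ 2) ^ ((n - 2) % m) *
              (1 + C ((n - 2) / m) * X + C ((n - 2) / m) * X ^ 2) ^ (m - (n - 2) % m)
              : ℕ[X]).coeff (i + 1) ∧
        ((Δ.filter (fun σ => σ.card = i + 1)).card =
            ((1 + C 2 * X) *
              (1 + C ((n - 2) / m + 1) * X + C ((n - 2) / m + 1) * X ^ 2) ^ ((n - 2) % m) *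
              (1 + C ((n - 2) / m) * X + C ((n - 2) / m) * X ^ 2) ^ (m - (n - 2) % m)
              : ℕ[X]).coeff (i + 1) →
          ∃ c : Fin n → ℕ,
            (∀ v, c v < m) ∧
            (∀ σ : Finset (Fin n),
                (∀ j, j < m → σ.filter (fun v => c v = j) ∈ Δ) → σ ∈ Δ) ∧
            (∀ j, j < m →
                HS (Δ.filter (fun σ => ∀ v ∈ σ, c v = j)) (if j = 0 then 2 else 1)) ∧
            (∀ j, j < m →
                ((Finset.univ.filter (fun v => c v = j)).card =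
                    (n - 2) / m + (if j = 0 then 2 else 0) ∨
                 (Finset.univ.filter (fun v => c v = j)).card =
                    (n - 2 + m - 1) / m + (if j = 0 then 2 else 0)))) := by
  intro m hm
  obtain ⟨n0, hn0⟩ := Pool.Agent.Work.MP_001c0f_co.main_large m hm
  refine ⟨n0, ?_⟩
  intro k _ n hn B hB HS hHS Δ h1 h2 h3 h4 i hi
  have hB' : B = Pool.Agent.Work.MP_001c0f_co.BB k := by
    funext L s
    exact hB L s
  subst hB'
  exact hn0 k n hn HS hHS Δ h1 h2 h3 h4 i hi _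
    (Pool.Agent.Work.MP_001c0f_co.frozen_coeff (by omega) (n - 2) (i + 1))

end Pool.Agent.Results.MP_001c0f_co.LargeN
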